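import Mathlib

set_option autoImplicit false

namespace Pool.Agent.Results.MP_d24a2a_lc.Stable

structure Rule (A : Type) where
  head : A
  pos : Finset A
  neg : Finset A

variable {A : Type}

def UniRule (P : Set (Rule A)) : Prop := ∀ r ∈ P, ∀ r' ∈ P, r.head = r'.head → r = r'

def ReductModel (P : Set (Rule A)) (M N : Set A) : Prop :=
  ∀ r ∈ P, (∀ b ∈ r.neg, b ∉ M) → (∀ a ∈ r.pos, a ∈ N) → r.head ∈ N

def StableModel (P : Set (Rule A)) (M : Set A) : Prop := IsLeast {N | ReductModel P M N} M

def Arc (P : Set (Rule A)) (u v : A) (negative : Bool) : Prop :=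
  ∃ r ∈ P, r.head = v ∧ u ∈ (if negative then r.neg else r.pos)

def IsCycle (P : Set (Rule A)) (m : ℕ) (c : ℕ → A) (s : ℕ → Bool) : Prop :=
  0 < m ∧ c m = c 0 ∧ (∀ i < m, ∀ j < m, c i = c j → i = j) ∧ ∀ i < m, Arc P (c i) (c (i + 1)) (s i)

def OddCycle (m : ℕ) (s : ℕ → Bool) : Prop :=
  Odd ((Finset.range m).filter fun i => s i = true).card

def InCycle (m : ℕ) (c : ℕ → A) (s : ℕ → Bool) (u v : A) (σ : Bool) : Prop :=
  ∃ i < m, c i = u ∧ c (i + 1) = v ∧ s i = σ

def InternalTriple (P : Set (Rule A)) (m : ℕ) (c : ℕ → A) (s : ℕ → Bool) : Prop :=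
  ∃ i < m, ∃ j < m, ∃ k < m, c j ≠ c k ∧ Arc P (c i) (c j) false ∧ Arc P (c i) (c k) true ∧
    ¬ InCycle m c s (c i) (c j) false ∧ ¬ InCycle m c s (c i) (c k) true

theorem parity (t : ℕ → Bool) (m : ℕ) :
    Odd ((Finset.range m).filter fun i => (t i != t (i + 1)) = true).card ↔ t 0 ≠ t m := by
  induction m with
  | zero => simp
  | succ m ih =>
    rw [Finset.range_add_one, Finset.filter_insert]
    split_ifs with h
    · rw [Finset.card_insert_of_notMem (by simp), Nat.odd_add_one, ih]
      revert h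
      cases t 0 <;> cases t m <;> cases t (m + 1) <;> simp
    · rw [ih]
      revert h
      cases t 0 <;> cases t m <;> cases t (m + 1) <;> simp

def F (P : Set (Rule A)) (G : Set A) (y : A → Bool) (v : A) : Prop :=
  v ∈ G ∧ ∀ u σ, Arc P u v σ → y u = !σ

def St (P : Set (Rule A)) (G S : Set A) (y : A → Bool) (z : A) : ℕ → Set A
  | 0 => {z}
  | n + 1 => {v | v ∈ St P G S y z n ∨ v ∈ S ∧
      ((y v = true ∧ ∃ u ∈ St P G S y z n, ∃ σ, Arc P u v σ) ∨
      (y v = false ∧ v ∈ G ∧ ∀ u, Arc P u v (y u) → u ∈ St P G S y z n))}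

theorem St_mono (P : Set (Rule A)) (G S : Set A) (y : A → Bool) (z : A) :
    Monotone (St P G S y z) := monotone_nat_of_le_succ fun _ _ h => .inl h

theorem St_sub {P : Set (Rule A)} {G S : Set A} {y : A → Bool} {z : A} (hz : z ∈ S) (n : ℕ) :
    St P G S y z n ⊆ S := by
  induction n with
  | zero => exact Set.singleton_subset_iff.2 hz
  | succ n ih => exact fun v h => h.elim (fun h => ih h) fun h => h.1

theorem nocyc {P : Set (Rule A)} {G S : Set A} {y : A → Bool} {z : A}
    (H : ∀ m c s, IsCycle P m c s → OddCycle m s → InternalTriple P m c s)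
    (hy : ∀ v ∈ S, v ≠ z → (y v = true ↔ F P G y v)) (hz : y z = false) (hF : F P G y z)
    {u : A} {σ : Bool} {n : ℕ} (hu : u ∈ St P G S y z n) (ha : Arc P u z σ) : False := by
  classical
  let r : A → ℕ := fun v => sInf {n | v ∈ St P G S y z n}
  have rle : ∀ v n, v ∈ St P G S y z n → r v ≤ n := fun v n h => Nat.sInf_le h
  have path : ∀ N v, (∃ n, v ∈ St P G S y z n) → r v = N → ∃ (k : ℕ) (p : ℕ → A), p 0 = z ∧
      p k = v ∧ ∀ i < k, r (p i) < r (p (i + 1)) ∧ Arc P (p i) (p (i + 1)) (y (p i) != y (p (i + 1))) ∧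
        ∀ w, Arc P w (p (i + 1)) (y w) →
          y (p (i + 1)) = false ∧ r (p i) ≤ r w ∧ r w < r (p (i + 1)) := by
    intro N
    induction N using Nat.strong_induction_on with
    | _ N ih =>
    intro v hv hN
    have hm : v ∈ St P G S y z (r v) := Nat.sInf_mem hv
    rw [hN] at hm
    by_cases hvz : v = z
    · exact ⟨0, fun _ => z, rfl, hvz.symm, by simp⟩
    cases N with
    | zero => exact absurd hm hvz
    | succ N =>
    obtain ⟨hS, hm⟩ := hm.resolve_left fun c => by have := rle _ _ c; omega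
    have fin : ∀ a, (∃ n, a ∈ St P G S y z n) → r a < r v → Arc P a v (y a != y v) →
        (∀ w, Arc P w v (y w) → y v = false ∧ r a ≤ r w ∧ r w < r v) →
        ∃ (k : ℕ) (p : ℕ → A), p 0 = z ∧ p k = v ∧ ∀ i < k, r (p i) < r (p (i + 1)) ∧
          Arc P (p i) (p (i + 1)) (y (p i) != y (p (i + 1))) ∧ ∀ w, Arc P w (p (i + 1)) (y w) →
            y (p (i + 1)) = false ∧ r (p i) ≤ r w ∧ r w < r (p (i + 1)) := by
      intro a h1 h2 h3 h4
      obtain ⟨k, p, p0, pk, hp⟩ := ih (r a) (by omega) a h1 rfl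
      refine ⟨k + 1, fun i => if i ≤ k then p i else v, by simp [p0], by simp, fun i hi => ?_⟩
      rcases Nat.lt_succ_iff_lt_or_eq.1 hi with c | c
      · simp only [if_pos c.le, if_pos (Nat.succ_le_of_lt c)]
        exact hp i c
      · subst c
        simp only [le_refl, if_true, if_neg (Nat.not_succ_le_self i), pk]
        exact ⟨h2, h3, h4⟩
    rcases hm with ⟨h1, a, h2, τ, h3⟩ | ⟨h1, h2, h3⟩
    · have f := ((hy v hS hvz).1 h1).2
      refine fin a ⟨_, h2⟩ (by have := rle _ _ h2; omega) ?_ fun w hw => ?_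
      · rw [f a τ h3, h1]
        simpa using h3
      · have := f w _ hw
        simp at this
    · have ex : ∃ n, ∃ w, Arc P w v (y w) ∧ r w = n := by
        by_contra c
        have : F P G y v := ⟨h2, fun w τ hw => by
          by_contra d
          refine c ⟨_, w, ?_, rfl⟩
          have : y w = τ := by revert d; cases y w <;> cases τ <;> simp
          rwa [this]⟩
        rw [← hy v hS hvz, h1] at this
        cases this
      obtain ⟨a, a1, a2⟩ := Nat.find_spec ex
      have lt : ∀ w, Arc P w v (y w) → r w < r v := fun w hw => by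
        have := rle _ _ (h3 w hw)
        omega
      refine fin a ⟨_, h3 a a1⟩ (lt a a1) (by simpa [h1] using a1) fun w hw => ⟨h1, ?_, lt w hw⟩
      rw [a2]
      exact Nat.find_min' ex ⟨w, hw, rfl⟩
  obtain ⟨k, p, p0, pk, hp⟩ := path _ u ⟨n, hu⟩ rfl
  have mono : ∀ j ≤ k, ∀ i < j, r (p i) < r (p j) := by
    intro j
    induction j with
    | zero => simp
    | succ j ih =>
      intro hj i hi
      have := (hp j hj).1
      rcases Nat.lt_succ_iff_lt_or_eq.1 hi with c | c
      · have := ih (by omega) i c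
        omega
      · rwa [c]
  let c : ℕ → A := fun i => if i ≤ k then p i else z
  let t : ℕ → Bool := fun i => if i ≤ k then y (p i) else true
  have hc : ∀ i ≤ k, c i = p i := fun i h => if_pos h
  have ht : ∀ i ≤ k, t i = y (p i) := fun i h => if_pos h
  obtain ⟨i, hi, j, hj, l, hl, -, a1, a2, b1, b2⟩ := H (k + 1) c (fun i => t i != t (i + 1))
    ⟨by omega, by simp [c, p0], fun i hi j hj e => by
      rw [hc i (by omega), hc j (by omega)] at e
      rcases lt_trichotomy i j with h | h | h
      · have := mono j (by omega) i h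
        rw [e] at this
        omega
      · exact h
      · have := mono i (by omega) j h
        rw [e] at this
        omega, fun i hi => by
      rcases Nat.lt_succ_iff_lt_or_eq.1 hi with h | h
      · dsimp only
        rw [hc i h.le, hc _ h, ht i h.le, ht _ h]
        exact (hp i h).2.1
      · subst h
        simp only [c, t, le_refl, if_true, if_neg (Nat.not_succ_le_self i), pk, hF.2 u σ ha]
        simpa using ha⟩
    ((parity t _).2 (by simp [t, p0, hz]))
  have key : ∀ j < k + 1, Arc P (c i) (c j) (y (c i)) →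
      InCycle (k + 1) c (fun i => t i != t (i + 1)) (c i) (c j) (y (c i)) := by
    intro j hj h
    cases j with
    | zero =>
      rw [hc 0 (by omega), p0] at h
      have := hF.2 _ _ h
      simp at this
    | succ j =>
      rw [hc i (by omega), hc (j + 1) (by omega)] at h ⊢
      obtain ⟨e1, e2, e3⟩ := (hp j (by omega)).2.2 _ h
      have : i = j := by
        rcases lt_trichotomy i j with g | g | g
        · have := mono j (by omega) i g
          omega
        · exact g
        · rcases (Nat.succ_le_of_lt g).eq_or_lt with g | g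
          · rw [← g] at e3
            exact absurd e3 (lt_irrefl _)
          · have := mono i (by omega) _ g
            simp only [Nat.succ_eq_add_one] at this
            omega
      subst this
      refine ⟨i, by omega, hc i (by omega), hc _ (by omega), ?_⟩
      dsimp only
      rw [ht i (by omega), ht _ (by omega), e1]
      simp
  cases e : y (c i)
  · rw [e] at key
    exact b1 (key j hj a1)
  · rw [e] at key
    exact b2 (key l hl a2)

theorem fixpt {P : Set (Rule A)} (G : Set A)
    (H : ∀ m c s, IsCycle P m c s → OddCycle m s → InternalTriple P m c s) (n : ℕ) :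
    ∀ S : Finset A, S.card = n → ∀ b : A → Bool,
      ∃ y : A → Bool, (∀ v ∉ S, y v = b v) ∧ ∀ v ∈ S, (y v = true ↔ F P G y v) := by
  classical
  induction n using Nat.strong_induction_on with
  | _ n ih =>
  intro S hS b
  rcases S.eq_empty_or_nonempty with rfl | ⟨z, hz⟩
  · exact ⟨b, fun _ _ => rfl, by simp⟩
  have lt : ∀ T ⊆ S.erase z, T.card < n := fun T h => by
    have := Finset.card_le_card h
    have := Finset.card_erase_lt_of_mem hz
    omega
  obtain ⟨y, y1, y2⟩ := ih _ (lt _ le_rfl) (S.erase z) rfl (Function.update b z false)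
  have yz : y z = false := by rw [y1 z (by simp)]; simp
  have yb : ∀ v ∉ S, y v = b v := fun v hv => by
    rw [y1 v (by simp [hv]), Function.update_of_ne (fun c : v = z => hv (c ▸ hz))]
  have y3 : ∀ v ∈ (S : Set A), v ≠ z → (y v = true ↔ F P G y v) := fun v h1 h2 =>
    y2 v (Finset.mem_erase.2 ⟨h2, h1⟩)
  by_cases hF : F P G y z
  swap
  · refine ⟨y, yb, fun v hv => ?_⟩
    by_cases c : v = z
    · simp [c, yz, hF]
    · exact y3 v hv c
  obtain ⟨x, x1, x2⟩ := ih _ (lt _ (Finset.filter_subset _ _))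
    ((S.erase z).filter fun v => ∃ k, v ∈ St P G S y z k) rfl (Function.update y z true)
  have xy : ∀ v, (¬ ∃ k, v ∈ St P G S y z k) → x v = y v := fun v hv => by
    rw [x1 v (fun c => hv (Finset.mem_filter.1 c).2),
      Function.update_of_ne (fun c : v = z => hv ⟨0, c⟩)]
  refine ⟨x, fun v hv => ?_, fun v hv => ?_⟩
  · rw [x1 v (by simp [hv]), Function.update_of_ne (fun c : v = z => hv (c ▸ hz)), yb v hv]
  by_cases c : v = z
  · subst c
    rw [x1 v (by simp)]
    simp only [Function.update_self, true_iff]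
    refine ⟨hF.1, fun u σ h => ?_⟩
    rw [xy u fun ⟨k, hk⟩ => nocyc H y3 yz hF hk h]
    exact hF.2 u σ h
  by_cases d : ∃ k, v ∈ St P G S y z k
  · exact x2 v (Finset.mem_filter.2 ⟨Finset.mem_erase.2 ⟨c, hv⟩, d⟩)
  rw [xy v d]
  cases e : y v
  · simp only [Bool.false_eq_true, false_iff]
    rintro ⟨f1, f2⟩
    have fin : {u | Arc P u v (y u)}.Finite := by
      refine S.finite_toSet.subset fun u hu => ?_
      by_contra g
      have := f2 u _ hu
      rw [xy u] at this
      · simp at this
      · exact fun ⟨k, hk⟩ => g (St_sub hz k hk)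
    have all : ∀ u, Arc P u v (y u) → ∃ k, u ∈ St P G S y z k := fun u hu => by
      by_contra g
      have := f2 u _ hu
      rw [xy u g] at this
      simp at this
    choose! κ hκ using all
    obtain ⟨B, hB⟩ := (fin.image κ).bddAbove
    exact d ⟨B + 1, .inr ⟨hv, .inr ⟨e, f1, fun u hu =>
      St_mono _ _ _ _ _ (hB ⟨u, hu, rfl⟩) (hκ u hu)⟩⟩⟩
  · simp only [true_iff]
    have f := (y3 v hv c).1 e
    refine ⟨f.1, fun u σ h => ?_⟩
    rw [xy u fun ⟨k, hk⟩ => d ⟨k + 1, .inr ⟨hv, .inl ⟨e, u, hk, σ, h⟩⟩⟩]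
    exact f.2 u σ h

inductive Der (P : Set (Rule A)) : A → Prop
  | mk (r : Rule A) : r ∈ P → (∀ a ∈ r.pos, Der P a) → Der P r.head

theorem result (A : Type) [Finite A] (P : Set (Rule A)) (hU : UniRule P)
    (H : ∀ (m : ℕ) (c : ℕ → A) (s : ℕ → Bool),
      IsCycle P m c s → OddCycle m s → InternalTriple P m c s) :
    ∃ M : Set A, StableModel P M := by
  have := Fintype.ofFinite A
  obtain ⟨y, -, hy⟩ := fixpt {v | Der P v} H _ Finset.univ rfl fun _ => true
  replace hy := fun v => hy v (Finset.mem_univ v)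
  refine ⟨{v | y v = true}, fun r hr h1 h2 => (hy _).2 ⟨.mk r hr fun a ha => ((hy a).1 (h2 a ha)).1,
    ?_⟩, fun N hN v hv => ?_⟩
  · rintro u σ ⟨r', hr', e, hu⟩
    obtain rfl := hU _ hr' _ hr e
    cases σ
    · exact h2 u hu
    · simpa using h1 u hu
  · have d : Der P v := ((hy v).1 hv).1
    induction d with
    | mk r hr _ ih =>
      have f := ((hy _).1 hv).2
      refine hN r hr (fun b hb => ?_) fun a ha => ih a ha (f a false ⟨r, hr, rfl, ha⟩)
      simpa using f b true ⟨r, hr, rfl, hb⟩

end Pool.Agent.Results.MP_d24a2a_lc.Stable
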